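import Pool.Agent.Helper65.SGP.Thin
import Pool.Agent.R482.ST.Star

/-!
# MP_ca0a54_nt: the Hausdorff dimension of the exceptions at the powers of real numbers

No hypothesis is assumed.

Let `f_n` be positive functions on `(a, ∞)`, `a ≥ 0`, with `f_n(x) / x` nondecreasing, such that for
every `x` the exponent of convergence of the sequence `f_n(x)` is at most `τ` (for instance
`f_n(x) = x^n`, `x^(n²)`, `2^n x`, the orbits of `x² + 1`, with `τ = 0`). Let `0 ≤ η ≤ 1`,
`0 < θ < 1` and `c > 2 / (3 + η)`. The set of the `α > a` for which intervals `[t, t + t^θ]` with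
`|t - f_n(α)| ≤ D f_n(α)^θ` without two consecutive ordinates at distance less than `c` times the
mean spacing `2π / log t` exist for infinitely many `n` (for some `D`) has Hausdorff dimension at
most `(max(0, 1 + η - 2θ) + τ) / (1 - θ)`. For `τ = 0` and `η < θ` this is less than `1`.

Idea of the proof. By the mean value argument with a Dirichlet polynomial of length
`T^((1+η)/2)` the measure of the set of the exceptional `t` in `[T, 2T]` is at most
`T^(1+η-θ+ε)`. Near an exceptional `t` a whole interval of length `t^θ / 4` is exceptional for a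
slightly shorter window, so that the exceptional `t` are within `O(t^θ)` of the members of a set
with at most `X^(1+η-2θ+ε)` members up to `X`. The intervals around the members have short inverse
images under the functions `f_n` (`Pool/Agent/R482/ST/Star`, a starting file).
-/

open Filter MeasureTheory

namespace Pool.Agent.Results.MP_ca0a54_nt.DimensionOfExceptions

/-- multiplicity of `s` as a zero of the Riemann zeta function (order of vanishing at `s`) -/
noncomputable def zmult (s : ℂ) : ℕ := analyticOrderNatAt riemannZeta s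

/-- the number of nontrivial zeros of `ζ` with ordinate in `(0, t]`, with multiplicity -/
noncomputable def NZ (t : ℝ) : ℕ :=
  ∑ᶠ s ∈ {s : ℂ | riemannZeta s = 0 ∧ 0 < s.re ∧ s.re < 1 ∧ 0 < s.im ∧ s.im ≤ t}, zmult s

/-- for `n ≥ 1`: the `n`-th positive ordinate `γ_n` of a nontrivial zero of `ζ`, the ordinates being
listed in nondecreasing order and repeated according to multiplicity -/
noncomputable def ord (n : ℕ) : ℝ := sInf {t : ℝ | n ≤ NZ t}

/-- `[t, t + H]` contains two consecutive ordinates at distance less than `c` times the mean spacing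
`2π / log t` -/
def SmallGap (c t H : ℝ) : Prop :=
  ∃ m : ℕ, 1 ≤ m ∧ t ≤ ord m ∧ ord m ≤ ord (m + 1) ∧ ord (m + 1) ≤ t + H ∧
    ord (m + 1) - ord m < c * (2 * Real.pi / Real.log t)

/-- the functions `f n` are positive on `(a, ∞)`, `a ≥ 0`, and `f n x / x` is nondecreasing there -/
def Starshaped (a : ℝ) (f : ℕ → ℝ → ℝ) : Prop :=
  0 ≤ a ∧ ∀ n : ℕ, ∀ x y : ℝ, a < x → x ≤ y → 0 < f n x ∧ f n x / x ≤ f n y / y

/-- for each `x > a` the exponent of convergence of the sequence `f n x` is at most `τ` -/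
def Conv (a : ℝ) (f : ℕ → ℝ → ℝ) (τ : ℝ) : Prop :=
  ∀ x : ℝ, a < x → ∀ t : ℝ, τ < t → Summable (fun n : ℕ => (f n x) ^ (-t))

/-- every interval `[t, t + t^θ]` whose left end is within `O(f_n(α)^θ)` of a value `f_n(α)` contains
a gap smaller than `c` times the mean spacing, with finitely many exceptional `n` for each
constant `D` -/
def Good (c θ : ℝ) (f : ℕ → ℝ → ℝ) (α : ℝ) : Prop :=
  ∀ D : ℝ, ∃ n₀ : ℕ, ∀ n : ℕ, n₀ ≤ n → ∀ t : ℝ, |t - f n α| ≤ D * (f n α) ^ θ → SmallGap c t (t ^ θ)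

/-- **Theorem.** Let `f` be starshaped on `(a, ∞)` with exponent of convergence at most `τ ≥ 0`,
`0 ≤ η ≤ 1`, `0 < θ < 1` and `c > 2 / (3 + η)`. The set of the `α > a` that are not `Good` has
Hausdorff dimension at most `(max 0 (1 + η - 2 θ) + τ) / (1 - θ)`. -/
theorem result (a τ η θ c : ℝ) (f : ℕ → ℝ → ℝ) (hf : Starshaped a f) (hτ : 0 ≤ τ)
    (hv : Conv a f τ) (hη : 0 ≤ η) (hη1 : η ≤ 1) (hθ : 0 < θ) (hθ1 : θ < 1)
    (hc : 2 / (3 + η) < c) :
    dimH {α : ℝ | a < α ∧ ¬ Good c θ f α} ≤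
      ENNReal.ofReal ((max 0 (1 + η - 2 * θ) + τ) / (1 - θ)) := by
  obtain ⟨S, h, hS, t₀, D₀, hD₀, hbad⟩ := Pool.Agent.Helper65.SGP.thin hη hη1 hθ hθ1 hc
  obtain ⟨E, hE, hmain⟩ := Pool.Agent.R482.ST.windows S h (a := a) (τ := τ) (θ := θ) (f := f)
    hf hτ hv (le_max_left _ _) hθ1 hS
  refine (dimH_mono ?_).trans hE
  rintro α ⟨hα, hgood⟩
  by_contra hαE
  apply hgood
  intro D
  obtain ⟨n₁, hn₁⟩ := hmain α hα hαE (2 * D₀ + |D|)
  -- the values are large
  have hpos : ∀ n, 0 < f n α := fun n => (hf.2 n α α hα le_rfl).1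
  have hinf : Tendsto (fun n => f n α) atTop atTop := by
    rw [tendsto_atTop]
    intro M
    exact Pool.Agent.R482.ST.large hpos (show 0 < τ + 1 by linarith) (hv α hα (τ + 1) (by linarith)) M
  have e1 : ∀ᶠ n in atTop, |D| * 2 ≤ (f n α) ^ (1 - θ) :=
    ((tendsto_rpow_atTop (show 0 < 1 - θ by linarith)).comp hinf).eventually (eventually_ge_atTop _)
  have e2 : ∀ᶠ n in atTop, 2 * |t₀| ≤ f n α := hinf.eventually (eventually_ge_atTop _)
  obtain ⟨n₂, hn₂⟩ := eventually_atTop.1 (e1.and e2)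
  refine ⟨max n₁ n₂, fun n hn t ht => ?_⟩
  obtain ⟨g1, g2⟩ := hn₂ n ((le_max_right _ _).trans hn)
  have hF := hpos n
  by_contra hcon
  have k1 : |D| * (f n α) ^ θ ≤ f n α / 2 := by
    have e : (f n α) ^ θ * (f n α) ^ (1 - θ) = f n α := by
      rw [← Real.rpow_add hF, add_sub_cancel, Real.rpow_one]
    have e0 : 0 < (f n α) ^ θ := by positivity
    nlinarith
  have k2 : |t - f n α| ≤ |D| * (f n α) ^ θ :=
    ht.trans (mul_le_mul_of_nonneg_right (le_abs_self D) (by positivity))
  obtain ⟨k3, k4⟩ := abs_le.1 k2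
  have k5 : t₀ ≤ t := by
    have := le_abs_self t₀
    linarith
  have k6 : t ≤ 2 * f n α := by linarith
  have k7 : 0 < t := by linarith
  obtain ⟨p, hp, hpt⟩ := hbad t k5 hcon
  have k8 : t ^ θ ≤ 2 * (f n α) ^ θ := by
    calc t ^ θ ≤ (2 * f n α) ^ θ := Real.rpow_le_rpow k7.le k6 hθ.le
      _ = 2 ^ θ * (f n α) ^ θ := Real.mul_rpow (by norm_num) hF.le
      _ ≤ 2 * (f n α) ^ θ := by
          apply mul_le_mul_of_nonneg_right _ (by positivity)
          calc (2 : ℝ) ^ θ ≤ 2 ^ (1 : ℝ) := Real.rpow_le_rpow_of_exponent_le (by norm_num) hθ1.le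
            _ = 2 := Real.rpow_one 2
  have k9 := hn₁ n ((le_max_left _ _).trans hn) p hp
  have k10 : |h p - f n α| ≤ |h p - t| + |t - f n α| := abs_sub_le _ _ _
  have k11 : D₀ * t ^ θ ≤ D₀ * (2 * (f n α) ^ θ) := mul_le_mul_of_nonneg_left k8 hD₀.le
  have k12 : (2 * D₀ + |D|) * (f n α) ^ θ = D₀ * (2 * (f n α) ^ θ) + |D| * (f n α) ^ θ := by ring
  linarith

end Pool.Agent.Results.MP_ca0a54_nt.DimensionOfExceptions
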