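import Pool.Agent.Helper65.SGP.Second

/-!
# MP_ca0a54_nt: the stretches without small gaps, with a saving of a power of `T`

No hypothesis is assumed.

Let `0 ≤ η ≤ 1`, `T` large and `g = (2 / (3 + η)) (2π / log T) (1 + C / log T)`. If `[a_i, b_i]` are
finitely many intervals in `[T, 2T]` without common interior points, none of which contains two
consecutive ordinates at distance at most `g`, then `∑ (b_i - a_i)² ≤ C T^(1 + η) (log T)^38`.
In particular (not used below) by Chebyshev's inequality the set of the `t ∈ [T, 2T]` such that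
`[t, t + H]` contains no such gap has measure at most `C T^(1 + η) (log T)^38 / H`.

Idea of the proof. The residue theorem is applied to a Gaussian localisation of
`ζ ζ(1-s) A(s) A(1-s)` divided by two shifted copies of the completed zeta function, as in the
starting files, but the length `N = T^((1+η)/2)` of the Dirichlet polynomial `A` is kept free
instead of being tied to the length `H` of the intervals. The off-diagonal terms are bounded in
mean over the centre of the Gaussian by `(T + N^2) (log T)^36`, so the measure of the exceptional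
centres is at most `(T + N^2) (log T)^37 / H`, and `N^2 = T^(1+η)` may be much smaller than `T H`.
A dyadic decomposition of the lengths turns this into the second moment.
-/

open Filter MeasureTheory

namespace Pool.Agent.Results.MP_ca0a54_nt.PowerSavingExceptions

/-- multiplicity of `s` as a zero of the Riemann zeta function (order of vanishing at `s`) -/
noncomputable def zmult (s : ℂ) : ℕ := analyticOrderNatAt riemannZeta s

/-- the number of nontrivial zeros of `ζ` with ordinate in `(0, t]`, with multiplicity -/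
noncomputable def NZ (t : ℝ) : ℕ :=
  ∑ᶠ s ∈ {s : ℂ | riemannZeta s = 0 ∧ 0 < s.re ∧ s.re < 1 ∧ 0 < s.im ∧ s.im ≤ t}, zmult s

/-- for `n ≥ 1`: the `n`-th positive ordinate `γ_n` of a nontrivial zero of `ζ`, the ordinates being
listed in nondecreasing order and repeated according to multiplicity -/
noncomputable def ord (n : ℕ) : ℝ := sInf {t : ℝ | n ≤ NZ t}

/-- `[a, b]` contains two consecutive ordinates at distance at most `g` -/
def HasGap (g a b : ℝ) : Prop :=
  ∃ n : ℕ, 1 ≤ n ∧ a ≤ ord n ∧ ord n ≤ ord (n + 1) ∧ ord (n + 1) ≤ b ∧ ord (n + 1) - ord n ≤ g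

/-- `(2 / (3 + η)) (2π / log T) (1 + C / log T)` -/
noncomputable def gb (C η T : ℝ) : ℝ :=
  2 / (3 + η) * (2 * Real.pi / Real.log T) * (1 + C / Real.log T)

/-- There are `C`, `T0` such that for all `0 ≤ η ≤ 1` and `T ≥ T0`, with
`g = (2 / (3 + η)) (2π / log T) (1 + C / log T)`: if `[a_i, b_i]` are finitely many intervals in
`[T, 2T]` without common interior points, none of which contains two consecutive ordinates at
distance at most `g`, then `∑ (b_i - a_i)² ≤ C T^(1 + η) (log T)^38`. -/
theorem result : ∃ C T0 : ℝ, 0 < C ∧ ∀ η T : ℝ, 0 ≤ η → η ≤ 1 → T0 ≤ T →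
    ∀ (s : Finset ℕ) (a b : ℕ → ℝ),
      (∀ i ∈ s, T ≤ a i ∧ a i ≤ b i ∧ b i ≤ 2 * T ∧ ¬ HasGap (gb C η T) (a i) (b i)) →
      (∀ i ∈ s, ∀ j ∈ s, i ≠ j → b i ≤ a j ∨ b j ≤ a i) →
      ∑ i ∈ s, (b i - a i) ^ 2 ≤ C * T ^ (1 + η) * Real.log T ^ 38 := by
  obtain ⟨C2, T2, hC2, h2⟩ := Pool.Agent.Helper65.SGP.second_moment
  refine ⟨C2, T2, hC2, ?_⟩
  intro η T hη hη1 hT s a b hab hdis
  refine h2 η T hη hη1 hT ℕ s a b ?_ hdis
  intro i hi
  obtain ⟨h3, h4, h5, h6⟩ := hab i hi
  refine ⟨h3, h4, h5, fun hG => h6 ?_⟩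
  obtain ⟨n, hn, a1, a2, a3, a4⟩ := hG
  refine ⟨n, hn, a1, a2, ?_, a4⟩
  have h7 : a i + (b i - a i) = b i := by ring
  rw [h7] at a3
  exact a3

end Pool.Agent.Results.MP_ca0a54_nt.PowerSavingExceptions
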