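import Pool.Agent.Helper65.SGP.Values

/-!
# MP_ca0a54_nt: small gaps in short intervals at squares, powers, powers of primes

No hypothesis is assumed.

Let `G` be a sequence with `G(v+1) - G(v) ≥ v^(e-1-o(1))` and `G(v) ≤ v^(e+o(1))`, `e ≥ 1`, for
instance `v^k`, `β v^e`, the `k`-th powers of the prime numbers. Let `0 ≤ η ≤ 1`, `0 < θ < 1`,
`2θ ≤ 1 + η` and `c > 2 / (3 + η)`. For all `v ≤ N` but `N^(max(e(1+η-2θ), 1-e(θ-η)) + ε)` EVERY
interval `[t, t + t^θ]` with `|t - G(v)| ≤ D G(v)^θ` contains two consecutive ordinates of zeros of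
`ζ` at distance less than `c` times the mean spacing `2π / log t`. The exponent is less than `1`
if `η < θ` and `θ > (1 + η - 1/e) / 2`. For instance (`e = 2`, `η` near `0`) for almost all `n` the
interval `[n², n² + n^(1/2+ε)]` contains a gap smaller than `2/3` times the mean spacing.

Idea of the proof. The mean value argument with a Dirichlet polynomial of length `T^((1+η)/2)`
bounds the measure of the set of the exceptional `t ∈ [T, 2T]` by `T^(1+η-θ+ε)`; near an exceptional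
`t` a whole interval of length `t^θ / 4` is exceptional for a slightly shorter window. So the
exceptional `t` are within `O(t^θ)` of the members of a set with at most `X^(1+η-2θ+ε)` members up
to `X`, and each member is near at most `O(1 + X^θ / V^(e-1))` values `G(v)` with `v ∈ [V, 2V)`,
`V^e` about `X`.
-/

open Filter

namespace Pool.Agent.Results.MP_ca0a54_nt.ShortIntervalsAtPowers

/-- multiplicity of `s` as a zero of the Riemann zeta function (order of vanishing at `s`) -/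
noncomputable def zmult (s : ℂ) : ℕ := analyticOrderNatAt riemannZeta s

/-- the number of nontrivial zeros of `ζ` with ordinate in `(0, t]`, with multiplicity -/
noncomputable def NZ (t : ℝ) : ℕ :=
  ∑ᶠ s ∈ {s : ℂ | riemannZeta s = 0 ∧ 0 < s.re ∧ s.re < 1 ∧ 0 < s.im ∧ s.im ≤ t}, zmult s

/-- for `n ≥ 1`: the `n`-th positive ordinate `γ_n` of a nontrivial zero of `ζ`, the ordinates being
listed in nondecreasing order and repeated according to multiplicity -/
noncomputable def ord (n : ℕ) : ℝ := sInf {t : ℝ | n ≤ NZ t}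

/-- `[t, t + H]` contains two consecutive ordinates at distance less than `c` times the mean spacing
`2π / log t` -/
def SmallGap (c t H : ℝ) : Prop :=
  ∃ m : ℕ, 1 ≤ m ∧ t ≤ ord m ∧ ord m ≤ ord (m + 1) ∧ ord (m + 1) ≤ t + H ∧
    ord (m + 1) - ord m < c * (2 * Real.pi / Real.log t)

/-- steps of size at least `v^(e-1-δ)` and values at most `v^(e+δ)` for large `v`, for every
`δ > 0` -/
def Growth (e : ℝ) (G : ℕ → ℝ) : Prop :=
  ∀ δ : ℝ, 0 < δ → ∀ᶠ v : ℕ in atTop, (v : ℝ) ^ (e - 1 - δ) ≤ G (v + 1) - G v ∧ G v ≤ (v : ℝ) ^ (e + δ)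

/-- **Theorem.** Let `G` have `Growth e`, `e ≥ 1`, let `0 ≤ η ≤ 1`, `0 < θ < 1`, `2θ ≤ 1 + η`,
`c > 2 / (3 + η)`, `ε > 0` and `D` real. For all large `N` the number of the `v ≤ N` for which some
`t` with `|t - G(v)| ≤ D G(v)^θ` has no small gap in `[t, t + t^θ]` is at most
`N^(max(e(1+η-2θ), 1-e(θ-η)) + ε)`. -/
theorem result (c η θ D e ε : ℝ) (G : ℕ → ℝ) (hη : 0 ≤ η) (hη1 : η ≤ 1) (hθ : 0 < θ) (hθ1 : θ < 1)
    (hθη : 2 * θ ≤ 1 + η) (hc : 2 / (3 + η) < c) (he : 1 ≤ e) (hG : Growth e G) (hε : 0 < ε) :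
    ∃ N₀ : ℕ, ∀ N : ℕ, N₀ ≤ N →
      ({v : ℕ | v ≤ N ∧ ∃ t : ℝ, |t - G v| ≤ D * (G v) ^ θ ∧ ¬ SmallGap c t (t ^ θ)}.ncard : ℝ) ≤
        (N : ℝ) ^ (max (e * (1 + η - 2 * θ)) (1 - e * (θ - η)) + ε) :=
  Pool.Agent.Helper65.SGP.values hη hη1 hθ hθ1 hθη hc he hG ε hε

end Pool.Agent.Results.MP_ca0a54_nt.ShortIntervalsAtPowers
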