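import Pool.Agent.Helper65.SGP.Values
import Pool.Agent.N671.DA.Nat

/-!
# MP_ca0a54_nt: small gaps at the denominators of good simultaneous approximations

No hypothesis is assumed.

Let `G` be a sequence with `G(v+1) - G(v) ≥ v^(e-1-o(1))` and `G(v) ≤ v^(e+o(1))`, `e ≥ 1`, for
instance `v^e`. Let `0 ≤ η ≤ 1`, `0 < θ < 1`, `2θ ≤ 1 + η`, `c > 2 / (3 + η)`, `τ > 0` and let `β` be
a point of `ℝ^m`. For all `α` in `ℝ^m` outside a set of Hausdorff dimension at most
`(m + σ) / (1 + τ)`, `σ = max(e(1+η-2θ), 1-e(θ-η))`, for all `b`, `D` and all but finitely many `q`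
with `‖q α_j - β_j‖ ≤ b q^(-τ)` for all `j`, EVERY interval `[t, t + t^θ]` with
`|t - G(q)| ≤ D G(q)^θ` contains two consecutive ordinates of zeros of `ζ` at distance less than `c`
times the mean spacing. For `β = 0`, `b = 1` and `τ = 1/m` these `q` include the denominators of all
best approximations (of all convergents if `m = 1`), and the bound is less than `m` if `σ < 1`.

Idea of the proof. The exceptional `q` form a set with at most `N^(σ+ε)` members up to `N` by the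
mean value argument with a power saving (`Pool/Agent/Helper65/SGP`), and the approximations with
denominators in such a set have small dimension (`Pool/Agent/N671/DA`, a starting file).
-/

set_option maxHeartbeats 4000000

open Filter

namespace Pool.Agent.Results.MP_ca0a54_nt.SimultaneousApproximations

/-- multiplicity of `s` as a zero of the Riemann zeta function (order of vanishing at `s`) -/
noncomputable def zmult (s : ℂ) : ℕ := analyticOrderNatAt riemannZeta s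

/-- the number of nontrivial zeros of `ζ` with ordinate in `(0, t]`, with multiplicity -/
noncomputable def NZ (t : ℝ) : ℕ :=
  ∑ᶠ s ∈ {s : ℂ | riemannZeta s = 0 ∧ 0 < s.re ∧ s.re < 1 ∧ 0 < s.im ∧ s.im ≤ t}, zmult s

/-- for `n ≥ 1`: the `n`-th positive ordinate `γ_n` of a nontrivial zero of `ζ`, the ordinates being
listed in nondecreasing order and repeated according to multiplicity -/
noncomputable def ord (n : ℕ) : ℝ := sInf {t : ℝ | n ≤ NZ t}

/-- `[t, t + H]` contains two consecutive ordinates at distance less than `c` times the mean spacing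
`2π / log t` -/
def SmallGap (c t H : ℝ) : Prop :=
  ∃ m : ℕ, 1 ≤ m ∧ t ≤ ord m ∧ ord m ≤ ord (m + 1) ∧ ord (m + 1) ≤ t + H ∧
    ord (m + 1) - ord m < c * (2 * Real.pi / Real.log t)

/-- steps of size at least `v^(e-1-δ)` and values at most `v^(e+δ)` for large `v`, for every
`δ > 0` -/
def Growth (e : ℝ) (G : ℕ → ℝ) : Prop :=
  ∀ δ : ℝ, 0 < δ → ∀ᶠ v : ℕ in atTop, (v : ℝ) ^ (e - 1 - δ) ≤ G (v + 1) - G v ∧ G v ≤ (v : ℝ) ^ (e + δ)

/-- `‖q α_j - β_j‖ ≤ r` for all `j`, `‖x‖` the distance of `x` to the nearest integer -/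
def Solves {m : ℕ} (α β : Fin m → ℝ) (q : ℕ) (r : ℝ) : Prop :=
  ∀ j, ∃ p : ℤ, |(q : ℝ) * α j - β j - p| ≤ r

/-- **Theorem.** Let `G` have `Growth e`, `e ≥ 1`, let `0 ≤ η ≤ 1`, `0 < θ < 1`, `2θ ≤ 1 + η`,
`c > 2 / (3 + η)`, `τ > 0`, `β ∈ ℝ^m`. For all `α ∈ ℝ^m` outside a set of Hausdorff dimension at most
`(m + max(e(1+η-2θ), 1-e(θ-η))) / (1 + τ)`, for all real `b`, `D` there is `Q` such that for all
`q ≥ Q` with `‖q α_j - β_j‖ ≤ b q^(-τ)`, `j = 1, …, m`, and all `t` with `|t - G(q)| ≤ D G(q)^θ` there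
is a small gap in `[t, t + t^θ]`. -/
theorem result (c η θ e : ℝ) (G : ℕ → ℝ) (hη : 0 ≤ η) (hη1 : η ≤ 1) (hθ : 0 < θ) (hθ1 : θ < 1)
    (hθη : 2 * θ ≤ 1 + η) (hc : 2 / (3 + η) < c) (he : 1 ≤ e) (hG : Growth e G)
    (m : ℕ) (τ : ℝ) (hτ : 0 < τ) (β : Fin m → ℝ) :
    ∃ E : Set (Fin m → ℝ),
      dimH E ≤ ENNReal.ofReal ((m + max (e * (1 + η - 2 * θ)) (1 - e * (θ - η))) / (1 + τ)) ∧
      ∀ α : Fin m → ℝ, α ∉ E → ∀ b D : ℝ, ∃ Q : ℕ, ∀ q : ℕ, Q ≤ q →
        Solves α β q (b * (q : ℝ) ^ (-τ)) → ∀ t : ℝ, |t - G q| ≤ D * (G q) ^ θ → SmallGap c t (t ^ θ) := by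
  classical
  set σ : ℝ := max (e * (1 + η - 2 * θ)) (1 - e * (θ - η)) with hσ
  have hσ0 : 0 ≤ σ := le_trans (mul_nonneg (by linarith) (by linarith)) (le_max_left _ _)
  have hone : ∀ K : ℕ, ∃ E : Set (Fin m → ℝ), dimH E ≤ ENNReal.ofReal ((m + σ) / (1 + τ)) ∧
      ∀ α, α ∉ E → ∀ b : ℝ, {q : ℕ | q ∈ {q : ℕ | Pool.Agent.Helper65.SGP.Exc c θ K G q} ∧
        Pool.Agent.N671.DA.Solves α β q (b * (q : ℝ) ^ (-τ))}.Finite := by
    intro K
    refine Pool.Agent.N671.DA.dim_nat _ hσ0 hτ ?_ β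
    intro ε hε
    obtain ⟨N₀, hN₀⟩ := Pool.Agent.Helper65.SGP.values (D := K) hη hη1 hθ hθ1 hθη hc he hG ε hε
    refine ⟨N₀ + 1, fun X hX => ?_⟩
    have hX1 : (1 : ℝ) ≤ X := by exact_mod_cast hX
    have hp : (1 : ℝ) ≤ (X : ℝ) ^ (σ + ε) := Real.one_le_rpow hX1 (by linarith)
    have hN : (0 : ℝ) ≤ N₀ := Nat.cast_nonneg _
    rcases Nat.lt_or_ge X N₀ with h | h
    · have h1 : ((Finset.Icc 1 X).filter fun q => q ∈ {q : ℕ | Pool.Agent.Helper65.SGP.Exc c θ K G q}).card ≤ N₀ := by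
        refine (Finset.card_filter_le _ _).trans ?_
        rw [Nat.card_Icc]
        omega
      have h2 : ((((Finset.Icc 1 X).filter fun q =>
          q ∈ {q : ℕ | Pool.Agent.Helper65.SGP.Exc c θ K G q}).card : ℕ) : ℝ) ≤ N₀ := by exact_mod_cast h1
      nlinarith
    · have hfin : {v : ℕ | v ≤ X ∧ Pool.Agent.Helper65.SGP.Exc c θ K G v}.Finite :=
        (Set.finite_Iic X).subset fun v hv => hv.1
      have hsub : (((Finset.Icc 1 X).filter fun q =>
          q ∈ {q : ℕ | Pool.Agent.Helper65.SGP.Exc c θ K G q} : Finset ℕ) : Set ℕ) ⊆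
          {v : ℕ | v ≤ X ∧ Pool.Agent.Helper65.SGP.Exc c θ K G v} := by
        intro v hv
        rw [Finset.coe_filter] at hv
        exact ⟨(Finset.mem_Icc.1 hv.1).2, hv.2⟩
      have h1 := Set.ncard_le_ncard hsub hfin
      rw [Set.ncard_coe_finset] at h1
      have h2 := hN₀ X h
      have h3 : ((((Finset.Icc 1 X).filter fun q =>
          q ∈ {q : ℕ | Pool.Agent.Helper65.SGP.Exc c θ K G q}).card : ℕ) : ℝ) ≤ (X : ℝ) ^ (σ + ε) :=
        le_trans (by exact_mod_cast h1) h2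
      nlinarith
  choose E hE1 hE2 using hone
  refine ⟨⋃ K, E K, ?_, fun α hα b D => ?_⟩
  · rw [dimH_iUnion]
    exact iSup_le hE1
  · obtain ⟨K, hK⟩ := exists_nat_ge D
    have hαK : α ∉ E K := fun h => hα (Set.mem_iUnion.2 ⟨K, h⟩)
    have hfin := hE2 K α hαK b
    have hinf := Pool.Agent.Helper65.SGP.growth_large he hG
    obtain ⟨q₁, hq₁⟩ := eventually_atTop.1 (hinf.eventually (eventually_ge_atTop (0 : ℝ)))
    refine ⟨max q₁ (hfin.toFinset.sup id + 1), fun q hq hS t ht => ?_⟩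
    by_contra hcon
    have h0 : 0 ≤ G q := hq₁ q ((le_max_left _ _).trans hq)
    have hmem : q ∈ hfin.toFinset := by
      rw [Set.Finite.mem_toFinset]
      exact ⟨⟨t, ht.trans (mul_le_mul_of_nonneg_right hK (by positivity)), hcon⟩, hS⟩
    have h1 : q ≤ hfin.toFinset.sup id := Finset.le_sup (f := id) hmem
    have h2 := (le_max_right _ _).trans hq
    omega

end Pool.Agent.Results.MP_ca0a54_nt.SimultaneousApproximations
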